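import Pool.Agent.L7h23.SGP.Cc

/-!
# Project SGP: the classes of `x` modulo powers of two (C2)
-/

set_option autoImplicit false

namespace Pool.Agent.L7h23.SGP

open Pool.Agent.L7h48.SGP

/-- Two odd square roots modulo `4^a`. -/
theorem four_classes {a u v : ℕ} (hu : u % 2 = 1) (hv : v % 2 = 1) (ha : 1 ≤ a)
    (h : ((2 : ℤ) ^ (2 * a)) ∣ (u : ℤ) ^ 2 - (v : ℤ) ^ 2) :
    ((2 : ℤ) ^ (2 * a)) ∣ ((2 * u : ℕ) : ℤ) - ((2 * v : ℕ) : ℤ) ∨
      ((2 : ℤ) ^ (2 * a)) ∣ ((2 * u : ℕ) : ℤ) + ((2 * v : ℕ) : ℤ) := by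
  have h1 : ((2 : ℤ) ^ (2 * a)) ∣ ((u : ℤ) - v) * (u + v) := by
    have h2 : ((u : ℤ) - v) * (u + v) = (u : ℤ) ^ 2 - (v : ℤ) ^ 2 := by ring
    rwa [h2]
  have h2p : Prime (2 : ℤ) := Int.prime_two
  obtain ⟨b, hb⟩ : ∃ b, 2 * a = b + 1 := ⟨2 * a - 1, by omega⟩
  rw [hb] at h1 ⊢
  rcases (by omega : (u + v) % 4 = 2 ∨ (u + v) % 4 = 0) with h3 | h3
  · -- `u + v = 2 t`, `t` odd
    left
    obtain ⟨t, ht⟩ : ∃ t : ℤ, (u : ℤ) + v = 2 * t ∧ ¬ (2 : ℤ) ∣ t := by
      refine ⟨((u : ℤ) + v) / 2, ?_, ?_⟩ <;> omega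
    rw [ht.1] at h1
    have h4 : (2 : ℤ) ^ b ∣ ((u : ℤ) - v) * t := by
      refine Int.dvd_of_mul_dvd_mul_left (a := 2) (by norm_num) ?_
      have h5 : 2 * (((u : ℤ) - v) * t) = ((u : ℤ) - v) * (2 * t) := by ring
      rw [h5, ← pow_succ']
      exact h1
    have h5 : IsCoprime ((2 : ℤ) ^ b) t := ((h2p.coprime_iff_not_dvd).2 ht.2).pow_left
    obtain ⟨w, hw⟩ := h5.dvd_of_dvd_mul_right h4
    refine ⟨w, ?_⟩
    push_cast
    rw [pow_succ]
    linear_combination 2 * hw
  · -- `u - v = 2 t`, `t` odd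
    right
    obtain ⟨t, ht⟩ : ∃ t : ℤ, (u : ℤ) - v = 2 * t ∧ ¬ (2 : ℤ) ∣ t := by
      refine ⟨((u : ℤ) - v) / 2, ?_, ?_⟩ <;> omega
    rw [ht.1] at h1
    have h4 : (2 : ℤ) ^ b ∣ ((u : ℤ) + v) * t := by
      refine Int.dvd_of_mul_dvd_mul_left (a := 2) (by norm_num) ?_
      have h5 : 2 * (((u : ℤ) + v) * t) = (2 * t) * ((u : ℤ) + v) := by ring
      rw [h5, ← pow_succ']
      exact h1
    have h5 : IsCoprime ((2 : ℤ) ^ b) t := ((h2p.coprime_iff_not_dvd).2 ht.2).pow_left
    obtain ⟨w, hw⟩ := h5.dvd_of_dvd_mul_right h4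
    refine ⟨w, ?_⟩
    push_cast
    rw [pow_succ]
    linear_combination 2 * hw

/-- The classes modulo `2 P`. -/
theorem mem_four {P x z : ℕ} (hP : 0 < P)
    (h : (P : ℤ) ∣ (x : ℤ) - z ∨ (P : ℤ) ∣ (x : ℤ) + z) :
    x % (2 * P) ∈ ({z % P, z % P + P, (P - z % P) % P, (P - z % P) % P + P} : Finset ℕ) := by
  have h1 : x % P = z % P ∨ x % P = (P - z % P) % P := by
    rcases h with h | h
    · exact Or.inl (mod_pos h)
    · exact Or.inr (mod_neg hP h)
  have h2 : x % (2 * P) = x % P ∨ x % (2 * P) = x % P + P := by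
    have h3 : x % (2 * P) % P = x % P := Nat.mod_mod_of_dvd x (Dvd.intro_left 2 rfl)
    have h4 : x % (2 * P) < 2 * P := Nat.mod_lt _ (by omega)
    generalize x % (2 * P) = X at h3 h4
    rcases Nat.lt_or_ge X P with h5 | h5
    · left
      rw [← h3, Nat.mod_eq_of_lt h5]
    · right
      have h6 : X % P = (X - P) % P := Nat.mod_eq_sub_mod h5
      have h7 : (X - P) % P = X - P := Nat.mod_eq_of_lt (by omega)
      omega
  simp only [Finset.mem_insert, Finset.mem_singleton]
  rcases h1 with h1 | h1 <;> rcases h2 with h2 | h2 <;> rw [h1] at h2 <;> tauto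

theorem card_four (a b c d : ℕ) : (({a, b, c, d} : Finset ℕ).card : ℝ) ≤ 4 := by
  have h := Finset.card_le_four (a := a) (b := b) (c := c) (d := d)
  exact_mod_cast h

/-- The square of an odd number. -/
theorem odd_sq (v : ℕ) (hv : v % 2 = 1) : ∃ t, v ^ 2 = 8 * t + 1 := by
  obtain ⟨k, hk⟩ : ∃ k, v = 2 * k + 1 := ⟨v / 2, by omega⟩
  obtain ⟨t, ht⟩ : ∃ t, k * (k + 1) = 2 * t := by
    obtain ⟨t, ht⟩ := (Nat.even_mul_succ_self k).two_dvd
    exact ⟨t, ht⟩
  refine ⟨t, ?_⟩
  rw [hk]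
  nlinarith [ht]

theorem s_C2 : S_C2 := by
  intro j m y hj hm hy
  by_cases h2 : y % 2 = 1
  · -- `y` odd
    have hk : k2 j m y = 1 / 2 := by
      unfold k2
      rw [if_pos h2]
    refine ⟨1, 1, by norm_num, by norm_num, ?_, {1}, by simp, ?_⟩
    · rw [hk, fac_zero fun h => by omega]
      norm_num
    · rintro x ⟨D, hD, hT⟩
      rw [Finset.mem_singleton]
      have := hT.two
      omega
  · have h2' : 2 ∣ y := by omega
    by_cases h4 : y % 4 = 2
    · -- `y = 2 y₁`
      have h4' : ¬ 2 ^ 2 ∣ y := by omega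
      have hk : k2 j m y = if (3 ^ j * m ^ 3) % 4 = 3 then 1 else 0 := by
        unfold k2
        rw [if_neg h2, if_pos h4]
      rw [fac_one Nat.prime_two hy h2' h4']
      by_cases hn : (3 ^ j * m ^ 3) % 4 = 3
      · refine ⟨2, 1, by norm_num, by norm_num, by rw [hk, if_pos hn]; norm_num, {0}, by simp, ?_⟩
        rintro x ⟨D, hD, hT⟩
        rw [Finset.mem_singleton]
        have := hT.two
        omega
      · refine ⟨0, 0, le_rfl, by norm_num, by rw [hk, if_neg hn, zero_div, zero_div],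
          cov_empty ?_ _⟩
        rintro x ⟨D, hD, hT⟩
        have hx : x % 4 = 0 := by
          have := hT.two
          omega
        obtain ⟨a, ha⟩ : ∃ a, x = 4 * a := ⟨x / 4, by omega⟩
        obtain ⟨b, hb⟩ : ∃ b, y = 2 * b := ⟨y / 2, by omega⟩
        obtain ⟨t, ht⟩ := odd_sq b (by omega)
        have h5 := hT.eq
        have h6 : 4 * (4 * a ^ 2 + D * b ^ 2) = 4 * (3 ^ j * m ^ 3) := by
          rw [← h5, ha, hb]
          ring
        have h7 : 4 * a ^ 2 + D * b ^ 2 = 3 ^ j * m ^ 3 := Nat.eq_of_mul_eq_mul_left (by norm_num) h6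
        obtain ⟨c, hc⟩ : ∃ c, D = 12 * c + 11 := ⟨D / 12, by omega⟩
        rw [ht, hc] at h7
        have h8 : 4 * a ^ 2 + (12 * c + 11) * (8 * t + 1) =
            4 * (a ^ 2 + 3 * c * (8 * t + 1) + 22 * t + 2) + 3 := by ring
        rw [h8] at h7
        omega
    · -- `4 ∣ y`
      have h4' : y % 4 = 0 := by omega
      obtain ⟨a, ha⟩ : ∃ a, a = y.factorization 2 := ⟨_, rfl⟩
      have ha2 : 2 ≤ a := by
        rw [ha]
        exact (Nat.prime_two.pow_dvd_iff_le_factorization hy.ne').1 (Nat.dvd_of_mod_eq_zero h4')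
      obtain ⟨w, hw⟩ : ∃ w, y = 2 ^ a * w := by
        rw [ha]
        exact Nat.ordProj_dvd y 2
      have hw2 : w % 2 = 1 := by
        by_contra hcon
        obtain ⟨w', hw'⟩ : 2 ∣ w := by omega
        have h5 : 2 ^ (a + 1) ∣ y := ⟨w', by rw [hw, hw', pow_succ]; ring⟩
        have h6 := (Nat.prime_two.pow_dvd_iff_le_factorization hy.ne').1 h5
        omega
      obtain ⟨b, hb⟩ : ∃ b, a = b + 2 := ⟨a - 2, by omega⟩
      obtain ⟨t, ht⟩ := odd_sq w hw2
      -- the equation for `x = 2 u`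
      have hu : ∀ x D : ℕ, D % 12 = 11 → Tri D j m x y → ∃ u, x = 2 * u ∧ u % 2 = 1 ∧
          ∃ c, u ^ 2 + (12 * c + 11) * (4 * 4 ^ b * w ^ 2) = 3 ^ j * m ^ 3 := by
        intro x D hD hT
        have hx : x % 4 = 2 := by
          have := hT.two
          omega
        refine ⟨x / 2, by omega, by omega, D / 12, ?_⟩
        obtain ⟨u, hu⟩ : ∃ u, x = 2 * u := ⟨x / 2, by omega⟩
        obtain ⟨c, hc⟩ : ∃ c, D = 12 * c + 11 := ⟨D / 12, by omega⟩
        have h5 := hT.eq
        have h6 : (12 * c + 11) / 12 = c := by omega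
        have h7 : 2 * u / 2 = u := by omega
        rw [hc, h6, hu, h7]
        rw [hu, hc, hw, hb] at h5
        have h8 : 4 * (u ^ 2 + (12 * c + 11) * (4 * 4 ^ b * w ^ 2)) = 4 * (3 ^ j * m ^ 3) := by
          rw [← h5]
          have h9 : ((2 : ℕ) ^ (b + 2) * w) ^ 2 = 16 * 4 ^ b * w ^ 2 := by
            have h10 : (4 : ℕ) ^ b = (2 ^ b) ^ 2 := by
              rw [← pow_mul, mul_comm, pow_mul]
              norm_num
            rw [h10, pow_add]
            ring
          rw [h9]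
          ring
        exact Nat.eq_of_mul_eq_mul_left (by norm_num) h8
      -- the classes
      have hcov : Cov (fun x => ∃ D, D % 12 = 11 ∧ Tri D j m x y) (2 ^ (2 * a + 1)) 4 := by
        by_cases hne : ∃ x D, D % 12 = 11 ∧ Tri D j m x y
        · obtain ⟨z, D, hD, hT⟩ := hne
          obtain ⟨v, hv, hv2, c, hc⟩ := hu z D hD hT
          refine ⟨_, card_four (z % 2 ^ (2 * a)) (z % 2 ^ (2 * a) + 2 ^ (2 * a))
            ((2 ^ (2 * a) - z % 2 ^ (2 * a)) % 2 ^ (2 * a))
            ((2 ^ (2 * a) - z % 2 ^ (2 * a)) % 2 ^ (2 * a) + 2 ^ (2 * a)), fun x hx => ?_⟩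
          obtain ⟨D', hD', hT'⟩ := hx
          obtain ⟨u, hu', hu2, c', hc'⟩ := hu x D' hD' hT'
          have h5 : ((2 : ℤ) ^ (2 * a)) ∣ (u : ℤ) ^ 2 - (v : ℤ) ^ 2 := by
            have h6 : (u : ℤ) ^ 2 + (12 * c' + 11) * (4 * 4 ^ b * w ^ 2) =
                v ^ 2 + (12 * c + 11) * (4 * 4 ^ b * w ^ 2) := by
              exact_mod_cast hc'.trans hc.symm
            refine ⟨3 * (c - c') * w ^ 2, ?_⟩
            have h7 : (2 : ℤ) ^ (2 * a) = 16 * 4 ^ b := by
              rw [hb, pow_mul, pow_add]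
              norm_num
              ring
            rw [h7]
            linear_combination h6
          have h6 := four_classes hu2 hv2 (by omega) h5
          rw [← hu', ← hv] at h6
          have h7 : (2 : ℕ) ^ (2 * a + 1) = 2 * 2 ^ (2 * a) := by rw [pow_succ]; ring
          rw [h7]
          refine mem_four (by positivity) ?_
          push_cast
          exact h6
        · exact ⟨∅, by simp, fun x hx => absurd ⟨x, hx⟩ hne⟩
      have hnum : (4 : ℝ) / (2 ^ (2 * a + 1) : ℕ) = 2 / 4 ^ a := by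
        have h5 : ((2 ^ (2 * a + 1) : ℕ) : ℝ) = 2 * 4 ^ a := by
          push_cast
          rw [pow_succ, pow_mul]
          norm_num
          ring
        rw [h5]
        have h6 : (0 : ℝ) < 4 ^ a := by positivity
        field_simp
        norm_num
      have hodd : ∀ u : ℕ, u % 2 = 1 → u ^ 2 % 8 = 1 := by
        intro u hu
        obtain ⟨t, ht⟩ := odd_sq u hu
        omega
      by_cases h8 : y % 8 = 4
      · -- `a = 2`
        have hb0 : b = 0 := by
          rcases Nat.eq_zero_or_pos b with h | h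
          · exact h
          · exfalso
            obtain ⟨b', hb'⟩ : ∃ b', b = b' + 1 := ⟨b - 1, by omega⟩
            rw [hw, hb, hb'] at h8
            have h9 : (2 : ℕ) ^ (b' + 1 + 2) * w = 8 * (2 ^ b' * w) := by
              rw [pow_succ, pow_succ, pow_succ]; ring
            rw [h9] at h8
            omega
        have hk : k2 j m y = if (3 ^ j * m ^ 3) % 8 = 5 then 2 else 0 := by
          unfold k2
          rw [if_neg h2, if_neg h4, if_pos h8]
        by_cases hn : (3 ^ j * m ^ 3) % 8 = 5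
        · rw [if_pos hn] at hk
          refine ⟨2 * a + 1, 4, by norm_num, le_rfl, ?_, hcov⟩
          rw [hk, ← ha, hnum]
        · rw [if_neg hn] at hk
          refine ⟨0, 0, le_rfl, by norm_num, by rw [hk, zero_div, zero_div], cov_empty ?_ _⟩
          rintro x ⟨D, hD, hT⟩
          obtain ⟨u, hu', hu2, c, hc⟩ := hu x D hD hT
          have h9 := hodd u hu2
          rw [hb0, ht] at hc
          have h10 : (12 * c + 11) * (4 * 4 ^ 0 * (8 * t + 1)) =
              8 * (6 * c + 12 * 4 * c * t + 11 * 4 * t + 5) + 4 := by ring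
          rw [h10] at hc
          omega
      · have hb1 : 1 ≤ b := by
          rcases Nat.eq_zero_or_pos b with h | h
          · exfalso
            rw [hw, hb, h] at h8
            apply h8
            have h9 : (2 : ℕ) ^ (0 + 2) * w = 4 * w := by norm_num
            rw [h9]
            omega
          · exact h
        have hk : k2 j m y = if (3 ^ j * m ^ 3) % 8 = 1 then 2 else 0 := by
          unfold k2
          rw [if_neg h2, if_neg h4, if_neg h8]
        by_cases hn : (3 ^ j * m ^ 3) % 8 = 1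
        · rw [if_pos hn] at hk
          refine ⟨2 * a + 1, 4, by norm_num, le_rfl, ?_, hcov⟩
          rw [hk, ← ha, hnum]
        · rw [if_neg hn] at hk
          refine ⟨0, 0, le_rfl, by norm_num, by rw [hk, zero_div, zero_div], cov_empty ?_ _⟩
          rintro x ⟨D, hD, hT⟩
          obtain ⟨u, hu', hu2, c, hc⟩ := hu x D hD hT
          have h9 := hodd u hu2
          obtain ⟨b', hb'⟩ : ∃ b', b = b' + 1 := ⟨b - 1, by omega⟩
          rw [hb'] at hc
          have h10 : (12 * c + 11) * (4 * 4 ^ (b' + 1) * w ^ 2) =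
              8 * ((12 * c + 11) * (2 * 4 ^ b' * w ^ 2)) := by
            rw [pow_succ]; ring
          rw [h10] at hc
          omega

end Pool.Agent.L7h23.SGP
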