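import Pool.Agent.L7h48.SGP.Stm

/-!
# Project SGP: the classes of `x` (CV, CQ, C3)
-/

set_option autoImplicit false

namespace Pool.Agent.L7h23.SGP

open Pool.Agent.L7h48.SGP

/-! ### CV -/

theorem cov_mul (S : ℕ → Prop) (Q Q' : ℕ) (r r' : ℝ) (hQ : 0 < Q) (hQ' : 0 < Q')
    (hc : Nat.Coprime Q Q') (h : Cov S Q r) (h' : Cov S Q' r') : Cov S (Q * Q') (r * r') := by
  obtain ⟨F, h1, h2⟩ := h
  obtain ⟨F', h1', h2'⟩ := h'
  refine ⟨(Finset.range (Q * Q')).filter fun t => t % Q ∈ F ∧ t % Q' ∈ F', ?_, fun x hx => ?_⟩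
  · have h3 : ((Finset.range (Q * Q')).filter fun t => t % Q ∈ F ∧ t % Q' ∈ F').card ≤
        (F ×ˢ F').card := by
      refine Finset.card_le_card_of_injOn (fun t => (t % Q, t % Q')) ?_ ?_
      · intro t ht
        have ht' := (Finset.mem_filter.1 (Finset.mem_coe.1 ht)).2
        exact Finset.mem_coe.2 (Finset.mem_product.2 ht')
      · intro t ht u hu htu
        have ht' := Finset.mem_range.1 (Finset.mem_filter.1 (Finset.mem_coe.1 ht)).1
        have hu' := Finset.mem_range.1 (Finset.mem_filter.1 (Finset.mem_coe.1 hu)).1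
        have h5 := Prod.mk.inj htu
        have h6 : t ≡ u [MOD Q * Q'] := (Nat.modEq_and_modEq_iff_modEq_mul hc).1 ⟨h5.1, h5.2⟩
        have h7 : t % (Q * Q') = u % (Q * Q') := h6
        rwa [Nat.mod_eq_of_lt ht', Nat.mod_eq_of_lt hu'] at h7
    rw [Finset.card_product] at h3
    have h4 : ((F.card * F'.card : ℕ) : ℝ) ≤ r * r' := by
      push_cast
      exact mul_le_mul h1 h1' (Nat.cast_nonneg _) ((Nat.cast_nonneg _).trans h1)
    exact (Nat.cast_le.2 h3).trans h4
  · rw [Finset.mem_filter, Finset.mem_range]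
    refine ⟨Nat.mod_lt _ (Nat.mul_pos hQ hQ'), ?_, ?_⟩
    · rw [Nat.mod_mul_right_mod]
      exact h2 x hx
    · rw [Nat.mod_mul_left_mod]
      exact h2' x hx

theorem card_class (Q c : ℕ) (hQ : 0 < Q) (α β : ℝ) (hαβ : α ≤ β) (T : Finset ℕ)
    (hT : ∀ x ∈ T, x % Q = c ∧ α ≤ x ∧ (x : ℝ) ≤ β) : (T.card : ℝ) ≤ (β - α) / Q + 1 := by
  have hQ' : (0 : ℝ) < Q := Nat.cast_pos.2 hQ
  rcases T.eq_empty_or_nonempty with rfl | hne
  · simp only [Finset.card_empty, Nat.cast_zero]
    have := div_nonneg (sub_nonneg.2 hαβ) hQ'.le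
    linarith
  · obtain ⟨a, ha, ha'⟩ := T.exists_min_image id hne
    obtain ⟨b, hb, hb'⟩ := T.exists_max_image id hne
    simp only [id] at ha' hb'
    have h1 : T.card ≤ (Finset.range ((b - a) / Q + 1)).card := by
      refine Finset.card_le_card_of_injOn (fun x => (x - a) / Q) ?_ ?_
      · intro x hx
        have hx' := Finset.mem_coe.1 hx
        refine Finset.mem_coe.2 (Finset.mem_range.2 (Nat.lt_succ_of_le ?_))
        exact Nat.div_le_div_right (Nat.sub_le_sub_right (hb' x hx') a)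
      · intro x hx z hz hxz
        have hx' := Finset.mem_coe.1 hx
        have hz' := Finset.mem_coe.1 hz
        simp only [] at hxz
        have key : ∀ u ∈ T, Q * ((u - a) / Q) = u - a := by
          intro u hu
          refine Nat.mul_div_cancel' ?_
          have h3 : a ≡ u [MOD Q] := (hT a ha).1.trans (hT u hu).1.symm
          exact (Nat.modEq_iff_dvd' (ha' u hu)).1 h3
        have h4 := key x hx'
        have h5 := key z hz'
        rw [hxz, h5] at h4
        have h6 := ha' x hx'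
        have h7 := ha' z hz'
        omega
    rw [Finset.card_range] at h1
    have h2 : (((b - a) / Q + 1 : ℕ) : ℝ) ≤ (β - α) / Q + 1 := by
      push_cast
      have h3 : (((b - a) / Q : ℕ) : ℝ) ≤ ((b - a : ℕ) : ℝ) / Q := Nat.cast_div_le
      rw [Nat.cast_sub (ha' b hb)] at h3
      have h4 : ((b : ℝ) - a) / Q ≤ (β - α) / Q := by
        refine div_le_div_of_nonneg_right ?_ hQ'.le
        have := (hT a ha).2.1
        have := (hT b hb).2.2
        linarith
      linarith
    exact (Nat.cast_le.2 h1).trans h2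

theorem s_CV : S_CV := by
  refine ⟨cov_mul, ?_⟩
  intro S Q r α β hQ hαβ h T hT
  obtain ⟨F, h1, h2⟩ := h
  have hQ' : (0 : ℝ) < Q := Nat.cast_pos.2 hQ
  have h0 : 0 ≤ (β - α) / Q + 1 := by
    have := div_nonneg (sub_nonneg.2 hαβ) hQ'.le
    linarith
  have h3 : T.card = ∑ c ∈ F, (T.filter fun x => x % Q = c).card :=
    Finset.card_eq_sum_card_fiberwise fun x hx => h2 x (hT x hx).1
  rw [h3]
  push_cast
  calc (∑ c ∈ F, ((T.filter fun x => x % Q = c).card : ℝ))
      ≤ ∑ c ∈ F, ((β - α) / Q + 1) := by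
        refine Finset.sum_le_sum fun c _ => card_class Q c hQ α β hαβ _ ?_
        intro x hx
        have hx' := Finset.mem_filter.1 hx
        exact ⟨hx'.2, (hT x hx'.1).2.1, (hT x hx'.1).2.2⟩
    _ = F.card * ((β - α) / Q + 1) := by rw [Finset.sum_const, nsmul_eq_mul]
    _ ≤ r * ((β - α) / Q + 1) := mul_le_mul_of_nonneg_right h1 h0

/-! ### square roots modulo prime powers -/

/-- The class of `-z`. -/
theorem mod_neg {x z Q : ℕ} (hQ : 0 < Q) (h : (Q : ℤ) ∣ (x : ℤ) + z) :
    x % Q = (Q - z % Q) % Q := by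
  have hz : z % Q < Q := Nat.mod_lt _ hQ
  have h1 : Q ∣ x + z := by exact_mod_cast h
  have h2 : (x + z) % Q = 0 := Nat.mod_eq_zero_of_dvd h1
  rw [Nat.add_mod] at h2
  have hx : x % Q < Q := Nat.mod_lt _ hQ
  rcases Nat.eq_zero_or_pos (z % Q) with h3 | h3
  · rw [h3, Nat.sub_zero, Nat.mod_self]
    rw [h3, Nat.add_zero, Nat.mod_mod] at h2
    exact h2
  · rw [Nat.mod_eq_of_lt (Nat.sub_lt hQ h3)]
    have h4 : Q ∣ x % Q + z % Q := Nat.dvd_of_mod_eq_zero h2
    have h5 : x % Q + z % Q = Q := by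
      obtain ⟨k, hk⟩ := h4
      have h6 : k = 1 := by
        have h7 : Q * k < Q * 2 := by omega
        have h8 : k < 2 := Nat.lt_of_mul_lt_mul_left h7
        rcases Nat.eq_zero_or_pos k with rfl | h9
        · omega
        · omega
      rw [h6, Nat.mul_one] at hk
      exact hk
    omega

theorem mod_pos {x z Q : ℕ} (h : (Q : ℤ) ∣ (x : ℤ) - z) : x % Q = z % Q :=
  ((Nat.modEq_iff_dvd.2 (by
    rw [← Int.dvd_neg, neg_sub]
    exact h)) : x ≡ z [MOD Q])

/-- Two square roots of a unit modulo an odd prime power differ by a sign. -/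
theorem two_classes {q n x z : ℕ} (hq : q.Prime) (hq2 : q ≠ 2) (hz : ¬ q ∣ z)
    (h : ((q ^ n : ℕ) : ℤ) ∣ (x : ℤ) ^ 2 - (z : ℤ) ^ 2) :
    x % q ^ n ∈ ({z % q ^ n, (q ^ n - z % q ^ n) % q ^ n} : Finset ℕ) := by
  have hq' : Prime (q : ℤ) := Nat.prime_iff_prime_int.1 hq
  have h1 : (q : ℤ) ^ n ∣ ((x : ℤ) - z) * (x + z) := by
    have h2 : ((x : ℤ) - z) * (x + z) = (x : ℤ) ^ 2 - (z : ℤ) ^ 2 := by ring
    rw [h2]
    exact_mod_cast h
  have hQ : 0 < q ^ n := Nat.pow_pos hq.pos
  rw [Finset.mem_insert, Finset.mem_singleton]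
  by_cases h3 : (q : ℤ) ∣ (x : ℤ) + z
  · right
    have h4 : ¬ (q : ℤ) ∣ (x : ℤ) - z := by
      intro h5
      have h6 : (q : ℤ) ∣ 2 * z := by
        have h7 := Int.dvd_sub h3 h5
        have h8 : (x : ℤ) + z - (x - z) = 2 * z := by ring
        rwa [h8] at h7
      rcases hq'.dvd_or_dvd h6 with h7 | h7
      · have h8 : q ∣ 2 := by exact_mod_cast h7
        exact hq2 ((Nat.prime_dvd_prime_iff_eq hq Nat.prime_two).1 h8)
      · exact hz (by exact_mod_cast h7)
    have h5 : IsCoprime ((q : ℤ) ^ n) ((x : ℤ) - z) :=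
      ((hq'.coprime_iff_not_dvd).2 h4).pow_left
    have h6 := h5.dvd_of_dvd_mul_left h1
    exact mod_neg hQ (by exact_mod_cast h6)
  · left
    have h5 : IsCoprime ((q : ℤ) ^ n) ((x : ℤ) + z) :=
      ((hq'.coprime_iff_not_dvd).2 h3).pow_left
    have h6 := h5.dvd_of_dvd_mul_right h1
    exact mod_pos (by exact_mod_cast h6)

theorem card_pair (a b : ℕ) : (({a, b} : Finset ℕ).card : ℝ) ≤ 2 := by
  have h := Finset.card_le_two (a := a) (b := b)
  exact_mod_cast h

/-! ### CQ -/

theorem s_CQ : S_CQ := by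
  intro j m y hj hm hy q hq hq5 hqy
  have := Fact.mk hq
  by_cases hqm : q ∣ m
  · -- the prime divides `m`
    have h1 : jacobiSym ((3 ^ j * m : ℕ) : ℤ) q = 0 := by
      rw [jacobiSym.eq_zero_iff]
      refine ⟨hq.ne_zero, fun h => ?_⟩
      have h2 : q ∣ Int.gcd ((3 ^ j * m : ℕ) : ℤ) (q : ℤ) := by
        rw [Int.gcd_natCast_natCast]
        exact Nat.dvd_gcd (hqm.mul_left _) dvd_rfl
      rw [h] at h2
      exact hq.one_lt.ne' (Nat.dvd_one.1 h2)
    rw [h1, Int.cast_zero, add_zero]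
    refine ⟨{0}, by simp, fun x hx => ?_⟩
    obtain ⟨D, hD, hT⟩ := hx
    obtain ⟨h2, h3⟩ := hT.big q hq hq5 hqy hqm
    have h4 : y.factorization q = 1 := by
      have h5 : 1 ≤ y.factorization q := (hq.dvd_iff_one_le_factorization hy.ne').1 hqy
      have h6 : ¬ 2 ≤ y.factorization q := fun h7 =>
        h2 ((hq.pow_dvd_iff_le_factorization hy.ne').2 h7)
      omega
    rw [h4, Finset.mem_singleton]
    exact Nat.mod_eq_zero_of_dvd h3
  · -- the prime does not divide `m`
    have hq3 : ¬ q ∣ 3 ^ j * m := by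
      intro h
      rcases hq.dvd_mul.1 h with h1 | h1
      · have h2 := (Nat.prime_dvd_prime_iff_eq hq Nat.prime_three).1 (hq.dvd_of_dvd_pow h1)
        omega
      · exact hqm h1
    have hsq : ∀ x D : ℕ, Tri D j m x y →
        ((q ^ (2 * y.factorization q) : ℕ) : ℤ) ∣ (x : ℤ) ^ 2 - 4 * (3 ^ j * m ^ 3 : ℕ) := by
      intro x D hT
      have h1 : q ^ (2 * y.factorization q) ∣ y ^ 2 := by
        rw [mul_comm, pow_mul]
        exact pow_dvd_pow_of_dvd (Nat.ordProj_dvd y q) 2
      have h2 : (x : ℤ) ^ 2 - 4 * (3 ^ j * m ^ 3 : ℕ) = -((D : ℤ) * ((y ^ 2 : ℕ) : ℤ)) := by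
        have h3 : (x : ℤ) ^ 2 + (D : ℤ) * ((y ^ 2 : ℕ) : ℤ) = 4 * (3 ^ j * m ^ 3 : ℕ) := by
          exact_mod_cast hT.eq
        linarith
      rw [h2, Int.dvd_neg]
      exact (Int.natCast_dvd_natCast.2 h1).mul_left _
    have hunit : ∀ x D : ℕ, Tri D j m x y → ¬ q ∣ x := by
      intro x D hT h
      have h1 := hT.eq
      have h2 : q ∣ 4 * (3 ^ j * m ^ 3) := by
        rw [← h1]
        exact Nat.dvd_add (dvd_pow h two_ne_zero) ((dvd_pow hqy two_ne_zero).mul_left _)
      rcases hq.dvd_mul.1 h2 with h3 | h3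
      · have h4 : q ∣ 2 ^ 2 := by simpa using h3
        have h5 := (Nat.prime_dvd_prime_iff_eq hq Nat.prime_two).1 (hq.dvd_of_dvd_pow h4)
        omega
      · rcases hq.dvd_mul.1 h3 with h4 | h4
        · exact hq3 (h4.mul_right _)
        · exact hqm (hq.dvd_of_dvd_pow h4)
    by_cases hne : ∃ x D, D % 12 = 11 ∧ Tri D j m x y
    · obtain ⟨z, D, hD, hT⟩ := hne
      have h1 : jacobiSym ((3 ^ j * m : ℕ) : ℤ) q = 1 := by
        have h2 := hsq z D hT
        have h3 : (q : ℤ) ∣ (z : ℤ) ^ 2 - 4 * (3 ^ j * m ^ 3 : ℕ) := by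
          refine dvd_trans (Int.natCast_dvd_natCast.2 (dvd_pow_self q ?_)) h2
          have h5 : 1 ≤ y.factorization q := (hq.dvd_iff_one_le_factorization hy.ne').1 hqy
          omega
        have h4 : jacobiSym ((z : ℤ) ^ 2) q = jacobiSym (4 * (3 ^ j * m ^ 3 : ℕ)) q := by
          rw [jacobiSym.mod_left ((z : ℤ) ^ 2), jacobiSym.mod_left (4 * _)]
          have h5 : (z : ℤ) ^ 2 ≡ 4 * (3 ^ j * m ^ 3 : ℕ) [ZMOD q] :=
            ((Int.modEq_iff_dvd).2 h3).symm
          rw [h5]
        have h5 : (4 * (3 ^ j * m ^ 3 : ℕ) : ℤ) = ((3 ^ j * m : ℕ) : ℤ) * (2 * m) ^ 2 := by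
          push_cast
          ring
        have h6 : Int.gcd (2 * m : ℤ) q = 1 := by
          have h7 : (2 * m : ℤ) = ((2 * m : ℕ) : ℤ) := by push_cast; ring
          rw [h7, Int.gcd_natCast_natCast]
          refine (Nat.Coprime.symm ((hq.coprime_iff_not_dvd).2 fun h => ?_))
          rcases hq.dvd_mul.1 h with h8 | h8
          · have h9 := (Nat.prime_dvd_prime_iff_eq hq Nat.prime_two).1 h8
            omega
          · exact hqm h8
        have h7 : Int.gcd (z : ℤ) q = 1 := by
          rw [Int.gcd_natCast_natCast]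
          exact Nat.Coprime.symm ((hq.coprime_iff_not_dvd).2 (hunit z D hT))
        rw [h5, jacobiSym.mul_left, jacobiSym.sq_one' h7, jacobiSym.sq_one' h6, mul_one] at h4
        exact h4.symm
      rw [h1]
      refine ⟨{z % q ^ (2 * y.factorization q),
        (q ^ (2 * y.factorization q) - z % q ^ (2 * y.factorization q)) %
          q ^ (2 * y.factorization q)}, ?_, fun x hx => ?_⟩
      · refine (card_pair _ _).trans ?_
        norm_num
      · obtain ⟨D', hD', hT'⟩ := hx
        refine two_classes hq (by omega) (hunit z D hT) ?_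
        have h2 := Int.dvd_sub (hsq x D' hT') (hsq z D hT)
        have h3 : (x : ℤ) ^ 2 - 4 * (3 ^ j * m ^ 3 : ℕ) - ((z : ℤ) ^ 2 - 4 * (3 ^ j * m ^ 3 : ℕ)) =
            (x : ℤ) ^ 2 - (z : ℤ) ^ 2 := by ring
        rwa [h3] at h2
    · refine ⟨∅, ?_, fun x hx => absurd ⟨x, hx⟩ hne⟩
      rw [Finset.card_empty, Nat.cast_zero]
      rcases jacobiSym.trichotomy ((3 ^ j * m : ℕ) : ℤ) q with h | h | h <;> rw [h] <;> norm_num

/-! ### C3 -/

theorem cov_empty {S : ℕ → Prop} (h : ∀ x, ¬ S x) (Q : ℕ) : Cov S Q 0 :=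
  ⟨∅, by simp, fun x hx => absurd hx (h x)⟩

theorem fac_zero {q y : ℕ} (h : ¬ q ∣ y) : y.factorization q = 0 :=
  Nat.factorization_eq_zero_of_not_dvd h

theorem fac_one {q y : ℕ} (hq : q.Prime) (hy : 0 < y) (h : q ∣ y) (h' : ¬ q ^ 2 ∣ y) :
    y.factorization q = 1 := by
  have h5 : 1 ≤ y.factorization q := (hq.dvd_iff_one_le_factorization hy.ne').1 h
  have h6 : ¬ 2 ≤ y.factorization q := fun h7 =>
    h' ((hq.pow_dvd_iff_le_factorization hy.ne').2 h7)
  omega

theorem s_C3 : S_C3 := by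
  intro j m y hj hm hy
  have hz : ∀ k : ℕ, (0 : ℝ) / (3 ^ k : ℕ) = 0 := fun k => zero_div _
  by_cases h3 : y % 3 = 0
  · have h3' : 3 ∣ y := Nat.dvd_of_mod_eq_zero h3
    by_cases h9 : y % 9 = 0
    · have h9' : 3 ^ 2 ∣ y := Nat.dvd_of_mod_eq_zero h9
      by_cases hc : j = 0 ∧ m % 3 = 1
      · obtain ⟨rfl, hm1⟩ := hc
        have hk : k3 0 m y = 2 / 3 := by
          unfold k3
          rw [if_pos rfl, if_neg (by omega), if_pos h9, if_pos hm1]
        refine ⟨2 * y.factorization 3 + 1, 2, by norm_num, le_rfl, ?_, ?_⟩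
        · rw [hk, pow_succ, pow_mul]
          push_cast
          have h2 : (0 : ℝ) < 9 ^ y.factorization 3 := by positivity
          norm_num
          field_simp
        · -- at most two classes
          obtain ⟨e, he⟩ : ∃ e, e = y.factorization 3 := ⟨_, rfl⟩
          rw [← he]
          have hu : ∀ x D, D % 12 = 11 → Tri D 0 m x y → ¬ 3 ∣ x := by
            intro x D hD hT h
            have h1 := hT.eq
            have h2 : 3 ∣ 4 * (3 ^ 0 * m ^ 3) := by
              rw [← h1]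
              exact Nat.dvd_add (dvd_pow h two_ne_zero) ((dvd_pow h3' two_ne_zero).mul_left _)
            have h4 : 3 ∣ m := by
              rw [pow_zero, one_mul] at h2
              rcases Nat.prime_three.dvd_mul.1 h2 with h5 | h5
              · omega
              · exact Nat.prime_three.dvd_of_dvd_pow h5
            omega
          obtain ⟨w, hw⟩ : ∃ w, y = 3 ^ e * w := by
            rw [he]
            exact Nat.ordProj_dvd y 3
          have hd : ∀ x D x' D' : ℕ, D % 12 = 11 → D' % 12 = 11 → Tri D 0 m x y →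
              Tri D' 0 m x' y → ((3 ^ (2 * e + 1) : ℕ) : ℤ) ∣ (x : ℤ) ^ 2 - (x' : ℤ) ^ 2 := by
            intro x D x' D' hD hD' hT hT'
            have h1 : (x : ℤ) ^ 2 + D * (y : ℤ) ^ 2 = x' ^ 2 + D' * (y : ℤ) ^ 2 := by
              exact_mod_cast hT.eq.trans hT'.eq.symm
            have h2 : (x : ℤ) ^ 2 - (x' : ℤ) ^ 2 = (D' - D) * (y : ℤ) ^ 2 := by linarith
            obtain ⟨t, ht⟩ : (3 : ℤ) ∣ (D' : ℤ) - D := by omega
            rw [h2, ht, hw]
            push_cast
            refine ⟨t * w ^ 2, ?_⟩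
            ring
          by_cases hne : ∃ x D, D % 12 = 11 ∧ Tri D 0 m x y
          · obtain ⟨z, D, hD, hT⟩ := hne
            refine ⟨{z % 3 ^ (2 * e + 1),
              (3 ^ (2 * e + 1) - z % 3 ^ (2 * e + 1)) % 3 ^ (2 * e + 1)},
              card_pair _ _, fun x hx => ?_⟩
            obtain ⟨D', hD', hT'⟩ := hx
            exact two_classes Nat.prime_three (by norm_num) (hu z D hD hT)
              (hd x D' z D hD' hD hT' hT)
          · exact ⟨∅, by simp, fun x hx => absurd ⟨x, hx⟩ hne⟩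
      · have hk : k3 j m y = 0 := by
          unfold k3
          by_cases hj0 : j = 0
          · rw [if_pos hj0, if_neg (by omega), if_pos h9, if_neg (by tauto)]
          · rw [if_neg hj0, if_neg (by omega), if_neg (by omega)]
        refine ⟨0, 0, le_rfl, by norm_num, by rw [hk, zero_div, zero_div], cov_empty ?_ _⟩
        rintro x ⟨D, hD, hT⟩
        have := hT.three
        omega
    · have h9' : ¬ 3 ^ 2 ∣ y := fun h => h9 (Nat.mod_eq_zero_of_dvd h)
      rw [fac_one Nat.prime_three hy h3' h9']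
      by_cases hc : j = 1 ∧ m % 3 = 0
      · obtain ⟨rfl, hm0⟩ := hc
        have hk : k3 1 m y = 2 / 3 := by
          unfold k3
          rw [if_neg (by norm_num), if_neg (by omega), if_pos h9, if_pos hm0]
        refine ⟨3, 2, by norm_num, le_rfl, by rw [hk]; norm_num, {3, 24}, card_pair _ _, ?_⟩
        rintro x ⟨D, hD, hT⟩
        rw [Finset.mem_insert, Finset.mem_singleton]
        have := hT.three
        omega
      · have hk : k3 j m y = 0 := by
          unfold k3
          by_cases hj0 : j = 0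
          · rw [if_pos hj0, if_neg (by omega), if_neg h9]
          · rw [if_neg hj0, if_neg (by omega), if_pos h9, if_neg (by omega)]
        refine ⟨0, 0, le_rfl, by norm_num, by rw [hk, zero_div, zero_div], cov_empty ?_ _⟩
        rintro x ⟨D, hD, hT⟩
        have := hT.three
        omega
  · rw [fac_zero fun h => h3 (Nat.mod_eq_zero_of_dvd h), pow_zero, div_one]
    by_cases hj0 : j = 0
    · subst hj0
      have hk : k3 0 m y = if m % 3 = 2 then 1 / 9 else if m % 3 = 0 then 2 / 9 else 0 := by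
        unfold k3
        rw [if_pos rfl, if_pos h3]
      rcases (by omega : m % 3 = 0 ∨ m % 3 = 1 ∨ m % 3 = 2) with h | h | h
      · rw [if_neg (by omega), if_pos h] at hk
        refine ⟨2, 2, by norm_num, le_rfl, by rw [hk]; norm_num, {1, 8}, card_pair _ _, ?_⟩
        rintro x ⟨D, hD, hT⟩
        rw [Finset.mem_insert, Finset.mem_singleton]
        have := hT.three
        omega
      · rw [if_neg (by omega), if_neg (by omega)] at hk
        refine ⟨0, 0, le_rfl, by norm_num, by rw [hk, zero_div], cov_empty ?_ _⟩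
        rintro x ⟨D, hD, hT⟩
        have := hT.three
        omega
      · rw [if_pos h] at hk
        refine ⟨2, 1, by norm_num, by norm_num, by rw [hk]; norm_num, {0}, by simp, ?_⟩
        rintro x ⟨D, hD, hT⟩
        rw [Finset.mem_singleton]
        have := hT.three
        omega
    · have hj1 : j = 1 := by omega
      subst hj1
      have hk : k3 1 m y = 2 / 9 := by
        unfold k3
        rw [if_neg (by norm_num), if_pos h3]
      rcases (by omega : m % 3 = 0 ∨ m % 3 = 1 ∨ m % 3 = 2) with h | h | h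
      · refine ⟨2, 2, by norm_num, le_rfl, by rw [hk]; norm_num, {1, 8}, card_pair _ _, ?_⟩
        rintro x ⟨D, hD, hT⟩
        rw [Finset.mem_insert, Finset.mem_singleton]
        have := hT.three
        omega
      · refine ⟨2, 2, by norm_num, le_rfl, by rw [hk]; norm_num, {4, 5}, card_pair _ _, ?_⟩
        rintro x ⟨D, hD, hT⟩
        rw [Finset.mem_insert, Finset.mem_singleton]
        have := hT.three
        omega
      · refine ⟨2, 2, by norm_num, le_rfl, by rw [hk]; norm_num, {2, 7}, card_pair _ _, ?_⟩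
        rintro x ⟨D, hD, hT⟩
        rw [Finset.mem_insert, Finset.mem_singleton]
        have := hT.three
        omega

end Pool.Agent.L7h23.SGP
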