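import Pool.Agent.L7h48.SGP.Stm
import Pool.Agent.L7h22.SG.C1

/-!
# Project SGP: the classes modulo `p`-th powers of a local field without `p`-th roots of unity (LC)

Variant of `Pool/Agent/L7h22/SG/C1.lean` (helper22).
-/

set_option autoImplicit false

open scoped Classical

namespace Pool.Agent.L7h23.SGP

open Pool.Agent.Y715.Nr Pool.Agent.L7h48.SG Pool.Agent.R425.G Pool.Agent.L7h22.SG.Hb
open Pool.Agent.L7h22.SG.C1 Pool.Agent.L7h48.SGP

theorem un_idx' {p : ℕ} [Fact p.Prime] (L : IntermediateField ℚ_[p] (PadicAlgCl p)) (hp : p ≠ 2)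
    [FiniteDimensional ℚ_[p] L] (hz : ∀ ζ ∈ L, ζ ^ p = 1 → ζ = 1) :
    ((PwH p (Un L)).subgroupOf (Un L)).index ≠ 0 ∧
    ((PwH p (Un L)).subgroupOf (Un L)).index ≤ p ^ (Module.finrank ℚ_[p] L) := by
  have h := herbrand_rel p (Up_le L) (Up_fin L) (by
    intro x hx hx2
    have h2 := congrArg Units.val hx2
    rw [Units.val_pow_eq_pow_val, Units.val_one] at h2
    exact Units.ext (tors hp h2 hx.2))
  have h1 : ((PwH p (Un L)).subgroupOf (Un L)).index = (PwH p (Un L)).relIndex (Un L) := rfl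
  obtain ⟨h2, h3⟩ := pw_idx L hp
  have hsub : Subsingleton (Tor p (Un L)) := by
    refine ⟨fun x y => ?_⟩
    have key : ∀ x : Tor p (Un L), (((x : Un L) : (PadicAlgCl p)ˣ) : PadicAlgCl p) = 1 := by
      intro x
      refine hz _ (x : Un L).2.1 ?_
      have h1 : ((x : Un L)) ^ p = 1 := x.2
      have h2 := congrArg (fun w : Un L => (((w : (PadicAlgCl p)ˣ)) : PadicAlgCl p)) h1
      simpa only [Subgroup.coe_pow, Units.val_pow_eq_pow_val, Subgroup.coe_one, Units.val_one]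
        using h2
    apply Subtype.ext
    apply Subtype.ext
    apply Units.ext
    rw [key x, key y]
  have hfin : Finite (Tor p (Un L)) := tor_fin L
  have h4 : 0 < Nat.card (Tor p (Un L)) := Nat.card_pos
  have h5 : Nat.card (Tor p (Un L)) ≤ 1 := Finite.card_le_one_iff_subsingleton.2 hsub
  rw [h1, h]
  refine ⟨mul_ne_zero h2 h4.ne', ?_⟩
  calc _ ≤ p ^ (Module.finrank ℚ_[p] L) * 1 := Nat.mul_le_mul h3 h5
    _ = _ := mul_one _

theorem s_LC : S_LC := by
  intro p _ hp L hL hz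
  have hpr := (Fact.out : p.Prime)
  obtain ⟨π, hπ, hπ0, hval⟩ := exists_unif L
  obtain ⟨h1, h2⟩ := un_idx' L hp hz
  have : ((PwH p (Un L)).subgroupOf (Un L)).FiniteIndex := ⟨h1⟩
  have : Finite (Un L ⧸ (PwH p (Un L)).subgroupOf (Un L)) :=
    Subgroup.finite_quotient_of_finiteIndex
  have := Fintype.ofFinite (Un L ⧸ (PwH p (Un L)).subgroupOf (Un L))
  refine ⟨(Finset.univ : Finset ((Un L ⧸ (PwH p (Un L)).subgroupOf (Un L)) × Fin p)).image
    (fun q => (((q.1.out : Un L) : (PadicAlgCl p)ˣ) : PadicAlgCl p) * π ^ (q.2 : ℕ)), ?_, ?_⟩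
  · refine Finset.card_image_le.trans ?_
    rw [Finset.card_univ, Fintype.card_prod, Fintype.card_fin, ← Nat.card_eq_fintype_card]
    have h3 : Nat.card (Un L ⧸ (PwH p (Un L)).subgroupOf (Un L)) ≤
      p ^ (Module.finrank ℚ_[p] L) := h2
    have e : p ^ (Module.finrank ℚ_[p] L + 1) = p ^ (Module.finrank ℚ_[p] L) * p := by ring
    rw [e]
    exact Nat.mul_le_mul h3 le_rfl
  · intro x hx hx0
    obtain ⟨k, hk⟩ := hval x hx hx0
    have hu0 : x * π ^ k ≠ 0 := mul_ne_zero hx0 (zpow_ne_zero _ hπ0)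
    set u : Un L := ⟨Units.mk0 (x * π ^ k) hu0, L.mul_mem hx (zm hπ _), hk⟩ with hu
    set q : Un L ⧸ (PwH p (Un L)).subgroupOf (Un L) := QuotientGroup.mk u with hq
    have hqo : (QuotientGroup.mk (q.out) : Un L ⧸ (PwH p (Un L)).subgroupOf (Un L)) =
      QuotientGroup.mk u := QuotientGroup.out_eq' q
    rw [QuotientGroup.eq, Subgroup.mem_subgroupOf, mem_pwH] at hqo
    obtain ⟨y, hy, hyq⟩ := hqo
    have hyq' := congrArg Units.val hyq
    simp only [Units.val_pow_eq_pow_val, Subgroup.coe_mul, Subgroup.coe_inv, Units.val_mul,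
      Units.val_inv_eq_inv_val] at hyq'
    have hr0 := ((q.out : Un L) : (PadicAlgCl p)ˣ).ne_zero
    have hxu : x * π ^ k = (((q.out : Un L) : (PadicAlgCl p)ˣ) : PadicAlgCl p) * (y : PadicAlgCl p) ^ p := by
      rw [hyq', mul_inv_cancel_left₀ hr0]
      rfl
    obtain ⟨l, j, hj, hkl⟩ : ∃ (l : ℤ) (j : ℕ), j < p ∧ -k = p * l + j := by
      have hp0 : (0 : ℤ) < p := by exact_mod_cast hpr.pos
      refine ⟨(-k) / p, ((-k) % p).toNat, ?_, ?_⟩
      · have := Int.emod_lt_of_pos (-k) hp0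
        have := Int.emod_nonneg (-k) hp0.ne'
        omega
      · have := Int.emod_nonneg (-k) hp0.ne'
        rw [Int.toNat_of_nonneg this]
        exact (Int.mul_ediv_add_emod (-k) p).symm
    refine ⟨(((q.out : Un L) : (PadicAlgCl p)ˣ) : PadicAlgCl p) * π ^ j, ?_, (y : PadicAlgCl p) * π ^ l,
      L.mul_mem hy.1 (zm hπ _), L.mul_mem (q.out : Un L).2.1 (pm hπ _),
      mul_ne_zero hr0 (pow_ne_zero _ hπ0), ?_⟩
    · rw [Finset.mem_image]
      exact ⟨(q, ⟨j, hj⟩), Finset.mem_univ _, rfl⟩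
    · have e1 : x = (x * π ^ k) * π ^ (-k) := by
        rw [mul_assoc, ← zpow_add₀ hπ0, add_neg_cancel, zpow_zero, mul_one]
      rw [e1, hxu, hkl, zpow_add₀ hπ0, zpow_mul', zpow_natCast, zpow_natCast]
      ring

end Pool.Agent.L7h23.SGP
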