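import Pool.Agent.L7h48.SGP.Stm

/-!
# Project SGP: the number of the `x` in an interval (XC)
-/

set_option autoImplicit false

namespace Pool.Agent.L7h23.SGP

open Pool.Agent.L7h48.SGP

theorem wt_nonneg (j m y : ℕ) : 0 ≤ Wt j m y := by
  refine Finset.prod_nonneg fun q _ => ?_
  rcases jacobiSym.trichotomy ((3 ^ j * m : ℕ) : ℤ) q with h | h | h <;> rw [h] <;> norm_num

theorem cov_prod (hCV : S_CV) (hCQ : S_CQ) {j m y : ℕ} (hj : j ≤ 1) (hm : 0 < m) (hy : 0 < y)
    (s : Finset ℕ) (hs : s ⊆ y.primeFactors.filter (5 ≤ ·)) :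
    Cov (fun x => ∃ D, D % 12 = 11 ∧ Tri D j m x y) (∏ q ∈ s, q ^ (2 * y.factorization q))
      (∏ q ∈ s, (1 + (jacobiSym ((3 ^ j * m : ℕ) : ℤ) q : ℝ))) := by
  classical
  induction s using Finset.induction_on with
  | empty => exact ⟨{0}, by simp, fun x _ => by simp [Nat.mod_one]⟩
  | insert q s hq ih =>
    have hq1 := Finset.mem_filter.1 (hs (Finset.mem_insert_self q s))
    have hqp := Nat.prime_of_mem_primeFactors hq1.1
    rw [Finset.prod_insert hq, Finset.prod_insert hq]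
    have hs' : s ⊆ y.primeFactors.filter (5 ≤ ·) := fun u hu => hs (Finset.mem_insert_of_mem hu)
    refine hCV.1 _ _ _ _ _ (Nat.pow_pos hqp.pos) ?_ ?_
      (hCQ j m y hj hm hy q hqp hq1.2 (Nat.dvd_of_mem_primeFactors hq1.1)) (ih hs')
    · exact Finset.prod_pos fun u hu => Nat.pow_pos
        (Nat.prime_of_mem_primeFactors (Finset.mem_filter.1 (hs' hu)).1).pos
    · refine Nat.Coprime.prod_right fun u hu => ?_
      have hup := Nat.prime_of_mem_primeFactors (Finset.mem_filter.1 (hs' hu)).1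
      refine Nat.Coprime.pow _ _ ((Nat.coprime_primes hqp hup).2 ?_)
      rintro rfl
      exact hq hu

theorem prod_fac {y : ℕ} (hy : 0 < y) :
    (2 : ℝ) ^ y.factorization 2 * 3 ^ y.factorization 3 *
      ∏ q ∈ y.primeFactors.filter (5 ≤ ·), (q : ℝ) ^ y.factorization q = y := by
  classical
  have h1 : ((∏ q ∈ y.primeFactors, q ^ y.factorization q : ℕ) : ℝ) = y := by
    have h2 := Nat.prod_factorization_pow_eq_self hy.ne'
    rw [Finsupp.prod, Nat.support_factorization] at h2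
    exact_mod_cast congrArg (Nat.cast : ℕ → ℝ) h2
  rw [Nat.cast_prod, ← Finset.prod_filter_mul_prod_filter_not y.primeFactors (5 ≤ ·)] at h1
  have h3 : (∏ q ∈ y.primeFactors.filter (¬ 5 ≤ ·), ((q ^ y.factorization q : ℕ) : ℝ)) =
      2 ^ y.factorization 2 * 3 ^ y.factorization 3 := by
    have h4 : y.primeFactors.filter (¬ 5 ≤ ·) ⊆ ({2, 3} : Finset ℕ) := by
      intro q hq
      have hq1 := Finset.mem_filter.1 hq
      have hqp := Nat.prime_of_mem_primeFactors hq1.1
      have h5 := hqp.two_le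
      have h6 := hq1.2
      rw [Finset.mem_insert, Finset.mem_singleton]
      have h7 : q ≠ 4 := by
        rintro rfl
        exact absurd hqp (by decide)
      omega
    rw [Finset.prod_subset h4]
    · rw [Finset.prod_pair (by norm_num)]
      push_cast
      rfl
    · intro q hq hq'
      have h5 : ¬ q ∈ y.primeFactors := by
        intro h6
        refine hq' (Finset.mem_filter.2 ⟨h6, ?_⟩)
        rw [Finset.mem_insert, Finset.mem_singleton] at hq
        omega
      have h6 : y.factorization q = 0 := by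
        rwa [← Finsupp.notMem_support_iff, Nat.support_factorization]
      rw [h6, pow_zero, Nat.cast_one]
  rw [h3] at h1
  simp only [Nat.cast_pow] at h1
  linarith

theorem s_XC (hCV : S_CV) (hCQ : S_CQ) (hC2 : S_C2) (hC3 : S_C3) : S_XC := by
  intro j m y hj hm hy α β hαβ T hT
  obtain ⟨k, r, hr0, hr4, hr, hc⟩ := hC2 j m y hj hm hy
  obtain ⟨k', r', hr0', hr2', hr', hc'⟩ := hC3 j m y hj hm hy
  have h1 := cov_prod hCV hCQ hj hm hy _ (Finset.Subset.refl _)
  have hpos : 0 < ∏ q ∈ y.primeFactors.filter (5 ≤ ·), q ^ (2 * y.factorization q) :=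
    Finset.prod_pos fun u hu => Nat.pow_pos
      (Nat.prime_of_mem_primeFactors (Finset.mem_filter.1 hu).1).pos
  have h2 := hCV.1 _ _ _ _ _ (Nat.pow_pos (n := k) two_pos) (Nat.pow_pos (n := k') three_pos)
    (Nat.Coprime.pow _ _ (by norm_num)) hc hc'
  have h23 : 0 < 2 ^ k * 3 ^ k' := Nat.mul_pos (Nat.pow_pos two_pos) (Nat.pow_pos three_pos)
  have h3 := hCV.1 _ _ _ _ _ h23 hpos (by
    refine Nat.Coprime.prod_right fun u hu => ?_
    have hu1 := Finset.mem_filter.1 hu
    have hup := Nat.prime_of_mem_primeFactors hu1.1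
    refine Nat.Coprime.mul_left ?_ ?_
    · refine Nat.Coprime.pow _ _ ((Nat.coprime_primes Nat.prime_two hup).2 ?_)
      rintro rfl
      exact absurd hu1.2 (by norm_num)
    · refine Nat.Coprime.pow _ _ ((Nat.coprime_primes Nat.prime_three hup).2 ?_)
      rintro rfl
      exact absurd hu1.2 (by norm_num)) h2 h1
  have h4 := hCV.2 _ _ _ α β (Nat.mul_pos h23 hpos) hαβ h3 T
    fun x hx => ⟨(hT x hx).2.2, (hT x hx).1, (hT x hx).2.1⟩
  have hW : (∏ q ∈ y.primeFactors.filter (5 ≤ ·),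
      (1 + (jacobiSym ((3 ^ j * m : ℕ) : ℤ) q : ℝ))) = Wt j m y := rfl
  rw [hW] at h4
  have hW0 := wt_nonneg j m y
  have h5 : r * r' * Wt j m y / ((2 ^ k * 3 ^ k' *
      ∏ q ∈ y.primeFactors.filter (5 ≤ ·), q ^ (2 * y.factorization q) : ℕ) : ℝ) =
      k2 j m y * k3 j m y * Wt j m y / y ^ 2 := by
    have hP : (∏ q ∈ y.primeFactors.filter (5 ≤ ·), (q : ℝ) ^ (2 * y.factorization q)) =
        (∏ q ∈ y.primeFactors.filter (5 ≤ ·), (q : ℝ) ^ y.factorization q) ^ 2 := by
      rw [← Finset.prod_pow]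
      refine Finset.prod_congr rfl fun q _ => ?_
      rw [mul_comm, pow_mul]
    have hP0 : 0 < ∏ q ∈ y.primeFactors.filter (5 ≤ ·), (q : ℝ) ^ y.factorization q :=
      Finset.prod_pos fun u hu => pow_pos (Nat.cast_pos.2
        (Nat.prime_of_mem_primeFactors (Finset.mem_filter.1 hu).1).pos) _
    have h6 : r * r' * Wt j m y / ((2 ^ k * 3 ^ k' *
      ∏ q ∈ y.primeFactors.filter (5 ≤ ·), q ^ (2 * y.factorization q) : ℕ) : ℝ) =
        (r / (2 ^ k : ℕ)) * (r' / (3 ^ k' : ℕ)) * Wt j m y /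
          (∏ q ∈ y.primeFactors.filter (5 ≤ ·), (q : ℝ) ^ y.factorization q) ^ 2 := by
      rw [← hP]
      push_cast
      field_simp
    rw [h6, hr, hr']
    have h11 : (y : ℝ) ^ 2 = (2 ^ y.factorization 2 * 3 ^ y.factorization 3 *
        ∏ q ∈ y.primeFactors.filter (5 ≤ ·), (q : ℝ) ^ y.factorization q) ^ 2 := by
      rw [prod_fac hy]
    rw [h11]
    have h7 : (4 : ℝ) ^ y.factorization 2 = (2 ^ y.factorization 2) ^ 2 := by
      rw [← pow_mul, mul_comm, pow_mul]
      norm_num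
    have h8 : (9 : ℝ) ^ y.factorization 3 = (3 ^ y.factorization 3) ^ 2 := by
      rw [← pow_mul, mul_comm, pow_mul]
      norm_num
    rw [h7, h8]
    have h9 : (0 : ℝ) < 2 ^ y.factorization 2 := by positivity
    have h10 : (0 : ℝ) < 3 ^ y.factorization 3 := by positivity
    field_simp
  have h6 : r * r' * Wt j m y ≤ 8 * Wt j m y := by
    refine mul_le_mul_of_nonneg_right ?_ hW0
    nlinarith
  calc (T.card : ℝ) ≤ _ := h4
    _ = r * r' * Wt j m y / ((2 ^ k * 3 ^ k' *
      ∏ q ∈ y.primeFactors.filter (5 ≤ ·), q ^ (2 * y.factorization q) : ℕ) : ℝ) * (β - α) +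
        r * r' * Wt j m y := by ring
    _ ≤ _ := by
      rw [h5]
      linarith

end Pool.Agent.L7h23.SGP
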